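import Mathlib
import Pool.Agent.Lib.MP_099f24_an.TM.Defs

/-!
# The gradient of a configuration, extended by zero on the closed set
-/

set_option autoImplicit false

namespace Pool.Agent.MP099f24

open MeasureTheory Filter Topology Set Metric
open scoped ENNReal ContDiff

/-- the gradient of `w` off `K`, zero on `K` -/
noncomputable def tgr (w : ℂ → ℝ) (K : Set ℂ) : ℂ → ℂ := Kᶜ.indicator (cgr w)

theorem measurable_cgr (w : ℂ → ℝ) : Measurable (cgr w) := by
  unfold cgr
  have h1 : ∀ v : ℂ, Measurable fun x => fderiv ℝ w x v := fun v =>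
    measurable_fderiv_apply_const ℝ w v
  exact (Complex.measurable_ofReal.comp (h1 1)).add
    ((Complex.measurable_ofReal.comp (h1 Complex.I)).mul_const _)

theorem tgr_of_mem {w : ℂ → ℝ} {K : Set ℂ} {x : ℂ} (hx : x ∈ K) : tgr w K x = 0 := by
  unfold tgr
  rw [indicator_of_notMem (by simpa using hx)]

theorem tgr_of_notMem {w : ℂ → ℝ} {K : Set ℂ} {x : ℂ} (hx : x ∉ K) : tgr w K x = cgr w x := by
  unfold tgr
  rw [indicator_of_mem (by simpa using hx)]

theorem measurable_tgr (w : ℂ → ℝ) {K : Set ℂ} (hK : MeasurableSet K) : Measurable (tgr w K) :=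
  (measurable_cgr w).indicator hK.compl

end Pool.Agent.MP099f24
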